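import Pool.Agent.Helper77.RL.Goals2
import Pool.Agent.Helper2.RL.EF1
import Pool.Agent.Helper32.RL.DAT
import Pool.Agent.Helper51.RL.PRM
import Pool.Agent.Helper30.RL.SQR
import Pool.Agent.Helper22.RL.FRE

/-!
# Packet RL-MCH: matching of the lifted datum
-/

namespace Pool.Agent.Helper17.RL

open NumberField Polynomial Module IsDedekindDomain TensorProduct Pool.Agent.Helper51.SigLeo
open Pool.Agent.Helper51.RP
open Pool.Agent.Helper42.RD (IsDat LocD Match TSet)
open Pool.Agent.Helper77.RL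
open Pool.Agent.Helper95.RL (exists_below above_pull)
open Pool.Agent.Helper32.RL (above_unique mem_above)
open Pool.Agent.Helper51.RL (above_sq)
open Pool.Agent.Helper40.RS (bel conj_of_bel efg)
open Pool.Agent.Helper40.RD (valW ordW bel_of_above)

/-- The decomposition group of `W` over `M` is trivial if the prime `V` of `L` below it is free. -/
theorem free_top (p : ℕ) [Fact p.Prime] (n : ℕ) (K M L M' : Type) [Field K] [NumberField K]
    [Field M] [NumberField M] [Field L] [NumberField L] [Field M'] [NumberField M']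
    [Algebra K M] [Algebra K L] [Algebra K M'] [Algebra M M'] [Algebra L M'] [IsScalarTower K M M']
    [IsScalarTower K L M'] (S : Sqr p n K M L M')
    (W : HeightOneSpectrum (𝓞 M')) (V : HeightOneSpectrum (𝓞 L)) (hV : Above W V)
    (hfree : FreeP K V) : FreeP M W := by
  have hgal : IsGalois K M' := S.gal
  have hgalL : IsGalois K L := S.galL
  have hgalM : IsGalois M M' := IsGalois.tower_top_of_isGalois K M M'
  intro g hg
  set g₁ : M' ≃ₐ[K] M' := g.restrictScalars K with hg₁
  set h : L ≃ₐ[K] L := g₁.restrictNormal L with hh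
  have hcom : ∀ y : L, algebraMap L M' (h y) = g₁ (algebraMap L M' y) :=
    fun y => AlgEquiv.restrictNormal_commutes g₁ L y
  obtain rfl := bel_of_above hV
  have he : (bel L W).asIdeal.ramificationIdx' W.asIdeal ≠ 0 := by
    rw [Ideal.ramificationIdx'_eq_ramificationIdx _ _ (bel L W).ne_bot]
    have hgalL' : IsGalois L M' := IsGalois.tower_top_of_isGalois K L M'
    have h1 := efg (K := L) W
    intro h0
    rw [h0, zero_mul, mul_zero] at h1
    have h3 : 0 < finrank L M' := finrank_pos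
    omega
  have h1 : h = 1 := by
    apply hfree
    intro y
    have h2 : W.valuation M' (algebraMap L M' (h y)) = W.valuation M' (algebraMap L M' y) := by
      rw [hcom]
      exact hg _
    rw [valW, valW] at h2
    exact (pow_left_inj₀ zero_le zero_le he).1 h2
  have h2 : g₁ = 1 := by
    apply S.gen
    · intro x
      exact g.commutes x
    · intro y
      rw [← hcom, h1]
      rfl
  ext x
  have h3 := congrArg (fun f : M' ≃ₐ[K] M' => f x) h2
  exact h3

theorem locPow_up (p : ℕ) {M M₁ : Type} [Field M] [NumberField M] [Field M₁] [NumberField M₁]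
    [Algebra M M₁] {W : HeightOneSpectrum (𝓞 M₁)} {w : HeightOneSpectrum (𝓞 M)}
    (h : Above W w) (x : M) (hx : LocPow p w x) : LocPow p W (algebraMap M M₁ x) := by
  obtain ⟨y, hy⟩ := hx
  refine ⟨algebraMap M M₁ y, ?_⟩
  rw [← map_pow, ← map_mul, ← map_one (algebraMap M M₁), ← map_sub]
  obtain rfl := bel_of_above h
  rw [valW]
  refine pow_lt_one₀ zero_le hy ?_
  intro h0
  have h1 := Pool.Agent.Helper40.RD.valW (M := M) W
  have h2 : ((bel M W).asIdeal.ramificationIdx' W.asIdeal : ℕ) = 0 := h0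
  obtain ⟨z, hz, hz0⟩ := Submodule.exists_mem_ne_zero_of_ne_bot (bel M W).ne_bot
  have h3 := h1 (z : M)
  rw [h2, pow_zero] at h3
  have h4 : W.valuation M₁ (algebraMap M M₁ (z : M)) < 1 := (mem_above h z).2 hz
  rw [h3] at h4
  exact lt_irrefl _ h4

theorem l_mch (h1 : Pool.Agent.Helper77.RL.L_SQR) (h2 : Pool.Agent.Helper77.RL.L_FRE)
    (h3 : Pool.Agent.Helper77.RL.L_EF1) : Pool.Agent.Helper77.RL.L_MCH := by
  intro p hp n K M L M' M₁ M₁' _ _ _ _ _ _ _ _ _ _ _ _ _ _ _ _ _ _ _ _ _ _ _ _ _ S S' R al hD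
    hsplit R' al' hL a hM
  have hgal' : IsGalois M M' := S'.galL
  refine ⟨?_, ?_⟩
  · intro W₁ W hW hf hWR
    obtain ⟨w, hw⟩ := exists_below (M := M) W
    obtain ⟨w₁, hw₁⟩ := exists_below (M := M₁) W₁
    have hww : Above w₁ w := above_sq hw₁ hW hw
    have hfw : FreeP K w := (h2 p n K M L M' S W w hw).1 hf
    have hwR : w ∉ R := fun h => hWR ((hL.iff W w hw).2 h)
    have h5 := hM.free w₁ w hww hfw hwR
    obtain rfl := bel_of_above hw₁
    rw [ordW]
    exact Dvd.dvd.mul_left h5 _
  · intro W hWR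
    obtain ⟨w, hw⟩ := exists_below (M := M) W
    have hwR : w ∈ R := (hL.iff W w hw).1 hWR
    obtain ⟨w₁, hw₁, hna, j, hj⟩ := hM.ram w hwR
    obtain ⟨W₁', hW₁'⟩ := Pool.Agent.Helper42.RS.exists_above (M := M₁) (H := M₁') w₁
    have hab : Above W₁' w₁ := hW₁'.over.symm
    obtain ⟨W', hW'⟩ := exists_below (M := M') W₁'
    have hW'w : Above W' w := above_sq hW' hab hw₁
    -- conjugate
    obtain ⟨g, hg⟩ : ConjP M W' W := by
      apply conj_of_bel
      rw [bel_of_above hW'w, bel_of_above hw]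
    obtain ⟨-, -, -, -, hsq⟩ := h1 p n M M₁ M' M₁' S'
    obtain ⟨f, hf1, hf2⟩ := hsq 1 g
    obtain ⟨W₁, -, hW₁⟩ := Pool.Agent.Helper90.RP.exists_pull (K := M) f W₁'
    have hA1 : Above W₁ w₁ := by
      unfold Above
      ext x
      rw [Ideal.mem_comap, ← mem_above hab]
      have e1 : algebraMap M₁ M₁' (x : M₁) = f (algebraMap M₁ M₁' (x : M₁)) := by
        rw [hf1]; rfl
      rw [e1, hW₁]
      have e2 : algebraMap M₁ M₁' (x : M₁) =
        algebraMap (𝓞 M₁') M₁' (algebraMap (𝓞 M₁) (𝓞 M₁') x) := rfl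
      rw [e2, HeightOneSpectrum.valuation_lt_one_iff_mem]
    have hA2 : Above W₁ W := by
      unfold Above
      ext x
      rw [Ideal.mem_comap]
      have e2 : algebraMap M' M₁' (x : M') =
        algebraMap (𝓞 M₁') M₁' (algebraMap (𝓞 M') (𝓞 M₁') x) := rfl
      rw [← HeightOneSpectrum.valuation_lt_one_iff_mem (K := M₁')]
      change W₁.valuation M₁' (algebraMap M' M₁' (x : M')) < 1 ↔ _
      rw [← hW₁, hf2]
      have hint : IsIntegral ℤ (g (x : M')) := (x.2 : IsIntegral ℤ (x : M')).map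
        (g : M' →ₐ[M] M').toRingHom.toIntAlgHom
      have e3 : W₁'.valuation M₁' (algebraMap M' M₁' (g (x : M'))) < 1 ↔
        (⟨g (x : M'), hint⟩ : 𝓞 M') ∈ W'.asIdeal := mem_above hW' (⟨g (x : M'), hint⟩ : 𝓞 M')
      have e5 : W'.valuation M' (algebraMap (𝓞 M') M' (⟨g (x : M'), hint⟩ : 𝓞 M')) < 1 ↔
        (⟨g (x : M'), hint⟩ : 𝓞 M') ∈ W'.asIdeal :=
        HeightOneSpectrum.valuation_lt_one_iff_mem (K := M') W' _
      have e6 : W.valuation M' (algebraMap (𝓞 M') M' x) < 1 ↔ x ∈ W.asIdeal :=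
        HeightOneSpectrum.valuation_lt_one_iff_mem (K := M') W _
      have e7 : W'.valuation M' (algebraMap (𝓞 M') M' (⟨g (x : M'), hint⟩ : 𝓞 M')) =
        W.valuation M' (algebraMap (𝓞 M') M' x) := hg (x : M')
      exact e3.trans (e5.symm.trans ((by rw [e7] : _ ↔ _).trans e6))
    obtain ⟨V, hV⟩ := exists_below (M := L) W
    obtain ⟨v, hv⟩ := exists_below (M := K) V
    have hwv : Above w v := above_sq hw hV hv
    have hfV : FreeP K V := hsplit w hwR v hwv V hv
    have hfW : FreeP M W := free_top p n K M L M' S W V hV hfV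
    have hEF := (h3 p n M M₁ M' M₁' S' W₁ w₁ W hA1 hA2 hfW).1
    refine ⟨W₁, hA2, by rw [hEF]; exact hna, j, ?_⟩
    have h6 := locPow_up p hA1 _ hj
    rw [map_mul, map_mul, map_pow, map_pow, map_neg, map_one] at h6
    have e6 : algebraMap M' M₁' (algebraMap L M' (al' W)) =
        algebraMap M₁ M₁' (algebraMap M M₁ (algebraMap K M (al w))) := by
      rw [hL.eq W w hw hwR, ← IsScalarTower.algebraMap_apply K L M',
        IsScalarTower.algebraMap_apply K M M', ← IsScalarTower.algebraMap_apply M M' M₁',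
        ← IsScalarTower.algebraMap_apply M M₁ M₁']
    rw [e6]
    exact h6

end Pool.Agent.Helper17.RL
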