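import Pool.Agent.Helper18.RL.Goals

set_option autoImplicit false
set_option linter.unusedSectionVars false

/-!
Packet RL-LOD: lifting of a long odd cycle through the odd gadget.
-/

namespace Pool.Agent.Helper17.RL

open Finset Pool.Agent.Helper37.RG3 Pool.Agent.Helper18.RL

/-- Packet RL-LOD. -/
theorem glod (hALT : G_ALT) : G_LOD := by
  intro V _ _ R K a b c x₀ hsymm hirr hab hac hbc haK hbK hcK hx₀ hm3 hma hmb hmc hQbc S hSK hLO
  set N : Finset V := {a, b, c} with hN
  have hNK : ∀ x ∈ N, x ∉ K := by
    intro x hx
    simp only [hN, mem_insert, mem_singleton] at hx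
    rcases hx with rfl | rfl | rfl <;> assumption
  have hbN : b ∈ N := by simp [hN]
  have hcN : c ∈ N := by simp [hN]
  have hx₀N : x₀ ∉ N := fun h => hNK _ h hx₀
  have hM1 : ∀ x ∈ N, ∃ m, MT R (insert x K) m := by
    intro x hx
    simp only [hN, mem_insert, mem_singleton] at hx
    rcases hx with rfl | rfl | rfl <;> assumption
  obtain ⟨m₃, hm₃, hm₃a, hm₃b, hm₃c⟩ := hm3
  have hm₃K : ∀ x ∈ N, m₃ x ∈ K := by
    intro x hx
    simp only [hN, mem_insert, mem_singleton] at hx
    rcases hx with rfl | rfl | rfl <;> assumption
  have hNK3 : ∀ x, x ∈ insert a (insert b (insert c K)) ↔ (x ∈ N ∨ x ∈ K) := by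
    intro x
    simp only [hN, mem_insert, mem_singleton]
    tauto
  -- edges of the gadget graph
  have hnew : ∀ x y, RO R K a b c x₀ x y → ¬ R x y → x ≠ x₀ → y ≠ x₀ →
      (x = b ∧ y = c) ∨ (x = c ∧ y = b) := by
    intro x y h1 h2 h3 h4
    rcases h1 with h | h | h | h | h
    · exact absurd h.1 h2
    · exact absurd h.1 h3
    · exact absurd h.1 h4
    · exact Or.inl h
    · exact Or.inr h
  have hxe : ∀ y, RO R K a b c x₀ x₀ y → y ∈ N := by
    intro y h1
    rcases h1 with h | h | h | h | h
    · exact absurd hx₀ h.2.1
    · exact h.2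
    · exact absurd h.2 hx₀N
    · exact absurd (h.1 ▸ hbN) hx₀N
    · exact absurd (h.1 ▸ hcN) hx₀N
  have hxe' : ∀ y, RO R K a b c x₀ y x₀ → y ∈ N := by
    intro y h1
    rcases h1 with h | h | h | h | h
    · exact absurd hx₀ h.2.2
    · exact absurd h.2 hx₀N
    · exact h.2
    · exact absurd (h.2 ▸ hcN) hx₀N
    · exact absurd (h.2 ▸ hbN) hx₀N
  -- three distinct elements of `N` exhaust `N`
  have hNcard : N.card ≤ 3 := Finset.card_le_three
  have hthree : ∀ x ∈ N, ∀ y ∈ N, ∀ z ∈ N, x ≠ y → x ≠ z → y ≠ z → ∀ t ∈ N,
      t = x ∨ t = y ∨ t = z := by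
    intro x hx y hy z hz h1 h2 h3 t ht
    by_contra hcon
    push Not at hcon
    have hsub : ({t, x, y, z} : Finset V) ⊆ N := by
      intro s hs
      simp only [mem_insert, mem_singleton] at hs
      rcases hs with rfl | rfl | rfl | rfl <;> assumption
    have hc := Finset.card_le_card hsub
    rw [Finset.card_insert_of_notMem (by
        simp only [mem_insert, mem_singleton, not_or]; exact hcon),
      Finset.card_insert_of_notMem (by
        simp only [mem_insert, mem_singleton, not_or]; exact ⟨h1, h2⟩),
      Finset.card_pair h3] at hc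
    omega
  obtain ⟨hodd, h5, s, e, hp, hes⟩ := hLO
  have hSKd : ∀ x ∈ S, x ≠ x₀ → x ∉ K := fun x hx hne hk =>
    disjoint_left.mp hSK (mem_sdiff.mpr ⟨hx, by simpa using hne⟩) hk
  -- the general ending: gluing a path `T` with a path `Q`
  have hend : ∀ (T Q : Finset V) (p q : V), Pth R T p q → Pth R Q q p → p ≠ q → p ∈ N → q ∈ N →
      T ⊆ S → x₀ ∉ T → (∀ x ∈ S, x ∉ N → x ≠ x₀ → x ∈ T) →
      (∀ x ∈ Q, x ∈ K ∨ (x ∈ S ∧ x ≠ x₀)) →
      (∀ x ∈ Q, x ∈ T → x = p ∨ x = q) →
      (∃ k ∈ Q, k ∈ K) → Odd (T.card + Q.card) → 3 ≤ T.card →
      (Odd T.card ∨ 4 ≤ T.card) →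
      ∃ S', LO R S' ∧ S' ⊆ (S \ {x₀}) ∪ K ∧ S \ {a, b, c, x₀} ⊆ S' ∧
        ((S' = S ∧ x₀ ∉ S) ∨ (2 ≤ (S' ∩ N).card ∧ (S' ∩ K).Nonempty)) := by
    intro T Q p q hT hQ hpq hpN hqN hTS hxT hST hQS hd hk hod hT3 hT4
    obtain ⟨k, hkQ, hkK⟩ := hk
    have h3 : 3 ≤ Q.card := by
      have hsub : ({p, q, k} : Finset V) ⊆ Q := by
        intro x hx
        simp only [mem_insert, mem_singleton] at hx
        rcases hx with rfl | rfl | rfl
        · exact hQ.right_mem
        · exact hQ.left_mem
        · exact hkQ
      have hc := Finset.card_le_card hsub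
      have hpk : p ≠ k := fun h => hNK p hpN (h ▸ hkK)
      have hqk : q ≠ k := fun h => hNK q hqN (h ▸ hkK)
      rw [Finset.card_insert_of_notMem (by
        simp only [mem_insert, mem_singleton, not_or]; exact ⟨hpq, hpk⟩),
        Finset.card_pair hqk] at hc
      exact hc
    obtain ⟨⟨a', b', hc1, hc2⟩, hcard⟩ := glue hT hQ hpq h3 hd
    have h7 : 7 ≤ T.card + Q.card := by
      rw [Nat.odd_iff] at hod
      rcases hT4 with h | h
      · rw [Nat.odd_iff] at h
        omega
      · omega
    refine ⟨T ∪ Q, ⟨?_, by omega, a', b', hc1, hc2⟩, ?_, ?_, Or.inr ⟨?_, ?_⟩⟩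
    · rw [← hcard] at hod
      rw [Nat.odd_iff] at hod ⊢
      omega
    · intro x hx
      rw [mem_union] at hx
      rw [mem_union, mem_sdiff, mem_singleton]
      rcases hx with hx | hx
      · exact Or.inl ⟨hTS hx, fun h => hxT (h ▸ hx)⟩
      · rcases hQS x hx with h | h
        · exact Or.inr h
        · exact Or.inl h
    · intro x hx
      rw [mem_sdiff] at hx
      simp only [mem_insert, mem_singleton, not_or] at hx
      refine mem_union_left _ (hST x hx.1 ?_ hx.2.2.2.2)
      simp only [hN, mem_insert, mem_singleton, not_or]
      exact ⟨hx.2.1, hx.2.2.1, hx.2.2.2.1⟩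
    · have hsub : ({p, q} : Finset V) ⊆ (T ∪ Q) ∩ N := by
        intro x hx
        simp only [mem_insert, mem_singleton] at hx
        rcases hx with rfl | rfl
        · exact mem_inter.mpr ⟨mem_union_left _ hT.left_mem, hpN⟩
        · exact mem_inter.mpr ⟨mem_union_left _ hT.right_mem, hqN⟩
      have hc := Finset.card_le_card hsub
      rwa [Finset.card_pair hpq] at hc
    · exact ⟨k, mem_inter.mpr ⟨mem_union_right _ hkQ, hkK⟩⟩
  by_cases hxS : x₀ ∈ S
  · -- case (B)
    obtain ⟨q, hp1, hq1⟩ := rotate hp hes hxS
    have hqN : q ∈ N := hxe' q hq1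
    cases hp1 with
    | one => simp at h5
    | @cons S₀ _ p _ hxp hxS₀ hp0 =>
      have hpN : p ∈ N := hxe p hxp
      have hcardS : (insert x₀ S₀).card = S₀.card + 1 := Finset.card_insert_of_notMem hxS₀
      have hpq : p ≠ q := by
        intro h
        subst h
        have h1 : S₀.card = 1 := by rw [hp0.eq_of_loop, card_singleton]
        omega
      have hS₀ : ∀ x ∈ S₀, x ≠ x₀ := fun x hx h => hxS₀ (h ▸ hx)
      have hS₀K : ∀ x ∈ S₀, x ∉ K := fun x hx => hSKd x (mem_insert_of_mem hx) (hS₀ x hx)
      have hmemS : ∀ x ∈ S₀, x ∈ insert x₀ S₀ := fun x hx => mem_insert_of_mem hx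
      rcases hp0.real_or R with hr | ⟨S₁, S₂, u, v, hS, hd, k1, k1', k2, k3, k4⟩
      · -- (B1)
        obtain ⟨m₁, hm₁⟩ := hM1 q hqN
        obtain ⟨m₂, hm₂⟩ := hM1 p hpN
        obtain ⟨Q, hQ1, hQ2, hQ3, hQ4⟩ := hALT V R (insert q K) (insert p K) m₁ m₂ q p hirr hm₁
          hm₂ (by simp) (by
            simp only [mem_insert, not_or]
            exact ⟨hpq.symm, hNK q hqN⟩) hpq.symm (by
            intro v hv1 hv2
            simp [hv1, hv2]) (Or.inr ⟨by
            simp only [mem_insert, not_or]
            exact ⟨hpq, hNK p hpN⟩, by simp⟩)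
        have hQsub : ∀ x ∈ Q, x = q ∨ x = p ∨ x ∈ K := by
          intro x hx
          have := hQ2 hx
          simp only [mem_union, mem_insert] at this
          tauto
        have hmq : m₁ q ∈ K := by
          obtain ⟨i1, i2, i3⟩ := hm₁ q (by simp)
          rw [mem_insert] at i1
          rcases i1 with h | h
          · rw [h] at i3
            exact absurd i3 (hirr q)
          · exact h
        have hQo : Odd Q.card := by
          rcases hQ4 with h | h
          · exfalso
            have := h.1
            rw [mem_insert] at this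
            rcases this with h' | h'
            · exact hpq h'
            · exact hNK p hpN h'
          · exact h.2
        have hS₀e : Even S₀.card := by
          rw [hcardS, Nat.odd_iff] at hodd
          rw [Nat.even_iff]
          omega
        refine hend S₀ Q p q hr hQ1 hpq hpN hqN (subset_insert _ _) hxS₀ ?_ ?_ ?_
          ⟨m₁ q, hQ3, hmq⟩ (hS₀e.add_odd hQo) (by omega) (Or.inr (by omega))
        · intro x hx _ hne
          rcases mem_insert.mp hx with h | h
          · exact absurd h hne
          · exact h
        · intro x hx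
          rcases hQsub x hx with rfl | rfl | h
          · exact Or.inr ⟨hmemS _ hr.right_mem, hS₀ _ hr.right_mem⟩
          · exact Or.inr ⟨hmemS _ hr.left_mem, hS₀ _ hr.left_mem⟩
          · exact Or.inl h
        · intro x hx hxS'
          rcases hQsub x hx with h | h | h
          · exact Or.inr h
          · exact Or.inl h
          · exact absurd h (hS₀K x hxS')
      · -- (B2)
        have hS1S : S₁ ⊆ S₀ := by rw [← hS]; exact subset_union_left
        have hS2S : S₂ ⊆ S₀ := by rw [← hS]; exact subset_union_right
        have hpS1 : p ∈ S₁ := k1.left_mem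
        have huS1 : u ∈ S₁ := k1.right_mem
        have hvS2 : v ∈ S₂ := k4.left_mem
        have hqS2 : q ∈ S₂ := k4.right_mem
        have hcard0 : S₀.card = S₁.card + S₂.card := by
          rw [← hS, Finset.card_union_of_disjoint hd]
        have hne : ∀ x ∈ S₁, ∀ y ∈ S₂, x ≠ y := by
          intro x hx y hy hxy
          exact disjoint_left.mp hd hx (hxy ▸ hy)
        have huv := hnew u v k2 k3 (hS₀ u (hS1S huS1)) (hS₀ v (hS2S hvS2))
        have huN : u ∈ N := by rcases huv with h | h <;> rw [h.1] <;> assumption
        have hvN : v ∈ N := by rcases huv with h | h <;> rw [h.2] <;> assumption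
        have hbcuv : ∀ x y : V, ((x = b ∧ y = c) ∨ (x = c ∧ y = b)) →
            (x = u ∧ y = v) ∨ (x = v ∧ y = u) := by
          intro x y hxy
          rcases huv with ⟨rfl, rfl⟩ | ⟨rfl, rfl⟩ <;> tauto
        have huv' : u ≠ v := hne u huS1 v hvS2
        by_cases hup : u = p
        · -- `u = p`
          subst hup
          have hS1 : S₁ = {u} := k1.eq_of_loop
          rw [hS1, card_singleton] at hcard0
          have hvq : v ≠ q := by
            intro h
            subst h
            have := k4.eq_of_loop
            rw [this, card_singleton] at hcard0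
            omega
          have huS2 : u ∉ S₂ := fun h => hne u huS1 u h rfl
          have hreal : Pth R S₂ v q := by
            rcases k4.real_or R with h | ⟨T₁, T₂, u', v', hT, hTd, j1, j1', j2, j3, j4⟩
            · exact h
            · exfalso
              have hu'2 : u' ∈ S₂ := by rw [← hT]; exact mem_union_left _ j1.right_mem
              have hv'2 : v' ∈ S₂ := by rw [← hT]; exact mem_union_right _ j4.left_mem
              rcases hbcuv u' v' (hnew u' v' j2 j3 (hS₀ u' (hS2S hu'2)) (hS₀ v' (hS2S hv'2)))
                with h | h
              · exact huS2 (h.1 ▸ hu'2)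
              · exact huS2 (h.2 ▸ hv'2)
          obtain ⟨m₂, hm₂⟩ := hM1 u huN
          obtain ⟨Q, hQ1, hQ2, hQ3, hQ4⟩ := hALT V R (insert a (insert b (insert c K)))
            (insert u K) m₃ m₂ q v hirr hm₃ hm₂ ((hNK3 q).mpr (Or.inl hqN)) (by
              simp only [mem_insert, not_or]
              exact ⟨(hne u huS1 q hqS2).symm, hNK q hqN⟩) hvq.symm (by
              intro x hx1 hx2
              rw [hNK3]
              simp only [mem_insert]
              constructor
              · rintro (h | h)
                · rcases hthree u huN v hvN q hqN huv' (hne u huS1 q hqS2) hvq x h with h' | h' | h'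
                  · exact Or.inl h'
                  · exact absurd h' hx2
                  · exact absurd h' hx1
                · exact Or.inr h
              · rintro (h | h)
                · exact Or.inl (h ▸ huN)
                · exact Or.inr h) (Or.inl ⟨(hNK3 v).mpr (Or.inl hvN), by
              simp only [mem_insert, not_or]
              exact ⟨huv'.symm, hNK v hvN⟩⟩)
          have hQsub : ∀ x ∈ Q, x = u ∨ x = v ∨ x = q ∨ x ∈ K := by
            intro x hx
            rcases mem_union.mp (hQ2 hx) with h | h
            · rcases (hNK3 x).mp h with h | h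
              · rcases hthree u huN v hvN q hqN huv' (hne u huS1 q hqS2) hvq x h with h' | h' | h'
                · exact Or.inl h'
                · exact Or.inr (Or.inl h')
                · exact Or.inr (Or.inr (Or.inl h'))
              · exact Or.inr (Or.inr (Or.inr h))
            · rcases mem_insert.mp h with h | h
              · exact Or.inl h
              · exact Or.inr (Or.inr (Or.inr h))
          have hQe : Even Q.card := by
            rcases hQ4 with h | h
            · exact h.2
            · exfalso
              have := h.1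
              rw [mem_insert] at this
              rcases this with h' | h'
              · exact huv' h'.symm
              · exact hNK v hvN h'
          have hS2o : Odd S₂.card := by
            rw [hcardS, hcard0, Nat.odd_iff] at hodd
            rw [Nat.odd_iff]
            omega
          refine hend S₂ Q v q hreal hQ1 hvq hvN hqN (hS2S.trans (subset_insert _ _))
            (fun h => hxS₀ (hS2S h)) ?_ ?_ ?_ ⟨m₃ q, hQ3, hm₃K q hqN⟩
            (hS2o.add_even hQe) (by omega) (Or.inl hS2o)
          · intro x hx hxN hne'
            rcases mem_insert.mp hx with h | h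
            · exact absurd h hne'
            · rw [← hS, mem_union, hS1, mem_singleton] at h
              rcases h with h | h
              · exact absurd (h ▸ huN) hxN
              · exact h
          · intro x hx
            rcases hQsub x hx with rfl | rfl | rfl | h
            · exact Or.inr ⟨hmemS _ (hS1S huS1), hS₀ _ (hS1S huS1)⟩
            · exact Or.inr ⟨hmemS _ (hS2S hvS2), hS₀ _ (hS2S hvS2)⟩
            · exact Or.inr ⟨hmemS _ (hS2S hqS2), hS₀ _ (hS2S hqS2)⟩
            · exact Or.inl h
          · intro x hx hxS'
            rcases hQsub x hx with h | h | h | h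
            · exact absurd (h ▸ hxS') huS2
            · exact Or.inl h
            · exact Or.inr h
            · exact absurd h (hS₀K x (hS2S hxS'))
        · -- `v = q`
          have hvq : v = q := by
            by_contra hvq
            rcases hthree p hpN u huN v hvN (Ne.symm hup) (hne p hpS1 v hvS2) huv'
              q hqN with h | h | h
            · exact hpq h.symm
            · exact hne u huS1 q hqS2 h.symm
            · exact hvq h.symm
          subst hvq
          have hS2 : S₂ = {v} := k4.eq_of_loop
          rw [hS2, card_singleton] at hcard0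
          have hvS1 : v ∉ S₁ := fun h => hne v h v hvS2 rfl
          have hup' : u ≠ p := hup
          have hpv : p ≠ v := hne p hpS1 v hvS2
          obtain ⟨m₂, hm₂⟩ := hM1 v hvN
          obtain ⟨Q, hQ1, hQ2, hQ3, hQ4⟩ := hALT V R (insert a (insert b (insert c K)))
            (insert v K) m₃ m₂ u p hirr hm₃ hm₂ ((hNK3 u).mpr (Or.inl huN)) (by
              simp only [mem_insert, not_or]
              exact ⟨huv', hNK u huN⟩) hup' (by
              intro x hx1 hx2
              rw [hNK3]
              simp only [mem_insert]
              constructor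
              · rintro (h | h)
                · rcases hthree u huN v hvN p hpN huv' hup' hpv.symm x h with h' | h' | h'
                  · exact absurd h' hx1
                  · exact Or.inl h'
                  · exact absurd h' hx2
                · exact Or.inr h
              · rintro (h | h)
                · exact Or.inl (h ▸ hvN)
                · exact Or.inr h) (Or.inl ⟨(hNK3 p).mpr (Or.inl hpN), by
              simp only [mem_insert, not_or]
              exact ⟨hpv, hNK p hpN⟩⟩)
          have hQsub : ∀ x ∈ Q, x = u ∨ x = v ∨ x = p ∨ x ∈ K := by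
            intro x hx
            rcases mem_union.mp (hQ2 hx) with h | h
            · rcases (hNK3 x).mp h with h | h
              · rcases hthree u huN v hvN p hpN huv' hup' hpv.symm x h with h' | h' | h'
                · exact Or.inl h'
                · exact Or.inr (Or.inl h')
                · exact Or.inr (Or.inr (Or.inl h'))
              · exact Or.inr (Or.inr (Or.inr h))
            · rcases mem_insert.mp h with h | h
              · exact Or.inr (Or.inl h)
              · exact Or.inr (Or.inr (Or.inr h))
          have hQe : Even Q.card := by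
            rcases hQ4 with h | h
            · exact h.2
            · exfalso
              have := h.1
              rw [mem_insert] at this
              rcases this with h' | h'
              · exact hpv h'
              · exact hNK p hpN h'
          have hS1o : Odd S₁.card := by
            rw [hcardS, hcard0, Nat.odd_iff] at hodd
            rw [Nat.odd_iff]
            omega
          refine hend S₁ Q p u k1 hQ1 hup'.symm hpN huN (hS1S.trans (subset_insert _ _))
            (fun h => hxS₀ (hS1S h)) ?_ ?_ ?_ ⟨m₃ u, hQ3, hm₃K u huN⟩
            (hS1o.add_even hQe) (by omega) (Or.inl hS1o)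
          · intro x hx hxN hne'
            rcases mem_insert.mp hx with h | h
            · exact absurd h hne'
            · rw [← hS, mem_union, hS2, mem_singleton] at h
              rcases h with h | h
              · exact h
              · exact absurd (h ▸ hvN) hxN
          · intro x hx
            rcases hQsub x hx with rfl | rfl | rfl | h
            · exact Or.inr ⟨hmemS _ (hS1S huS1), hS₀ _ (hS1S huS1)⟩
            · exact Or.inr ⟨hmemS _ (hS2S hvS2), hS₀ _ (hS2S hvS2)⟩
            · exact Or.inr ⟨hmemS _ (hS1S hpS1), hS₀ _ (hS1S hpS1)⟩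
            · exact Or.inl h
          · intro x hx hxS'
            rcases hQsub x hx with h | h | h | h
            · exact Or.inr h
            · exact absurd (h ▸ hxS') hvS1
            · exact Or.inl h
            · exact absurd h (hS₀K x (hS1S hxS'))
  · -- case (A)
    have hSne : ∀ x ∈ S, x ≠ x₀ := fun x hx h => hxS (h ▸ hx)
    rcases cyc_real_or hp hes R with ⟨h1, h2⟩ | ⟨p, q, h1, h2, h3⟩
    · refine ⟨S, ⟨hodd, h5, s, e, h1, h2⟩, ?_, sdiff_subset, Or.inl ⟨rfl, hxS⟩⟩
      intro x hx
      exact mem_union_left _ (mem_sdiff.mpr ⟨hx, by simpa using hSne x hx⟩)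
    · have hqp := hnew q p h2 h3 (hSne q h1.right_mem) (hSne p h1.left_mem)
      have hqN : q ∈ N := by rcases hqp with h | h <;> rw [h.1] <;> assumption
      have hpN : p ∈ N := by rcases hqp with h | h <;> rw [h.2] <;> assumption
      have hqp' : q ≠ p := by
        rcases hqp with ⟨rfl, rfl⟩ | ⟨rfl, rfl⟩
        · exact hbc
        · exact hbc.symm
      have hbcqp : ∀ x y : V, ((x = b ∧ y = c) ∨ (x = c ∧ y = b)) →
          (x = q ∧ y = p) ∨ (x = p ∧ y = q) := by
        intro x y hxy
        rcases hqp with ⟨rfl, rfl⟩ | ⟨rfl, rfl⟩ <;> tauto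
      have hr : Pth R S p q := by
        rcases h1.real_or R with h | ⟨T₁, T₂, u, v, hT, hTd, j1, j1', j2, j3, j4⟩
        · exact h
        · exfalso
          have huS : u ∈ S := by rw [← hT]; exact mem_union_left _ j1.right_mem
          have hvS : v ∈ S := by rw [← hT]; exact mem_union_right _ j4.left_mem
          rcases hbcqp u v (hnew u v j2 j3 (hSne u huS) (hSne v hvS)) with h | h
          · exact disjoint_left.mp hTd (h.1 ▸ j1.right_mem) j4.right_mem
          · obtain ⟨rfl, rfl⟩ := h
            have i1 := j1.eq_of_loop
            have i2 := j4.eq_of_loop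
            have i3 : S.card = 2 := by
              rw [← hT, Finset.card_union_of_disjoint hTd, i1, i2, card_singleton,
                card_singleton]
            omega
      -- the path through `K`
      obtain ⟨Q, hQK, hQp, hQe⟩ := hQbc
      have hQqp : Pth R Q q p := by
        rcases hqp with ⟨rfl, rfl⟩ | ⟨rfl, rfl⟩
        · exact hQp
        · exact hQp.symm hsymm
      have hQsub : ∀ x ∈ Q, x = q ∨ x = p ∨ x ∈ K := by
        intro x hx
        have := hQK hx
        simp only [mem_insert] at this
        rcases hqp with ⟨rfl, rfl⟩ | ⟨rfl, rfl⟩ <;> tauto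
      have hk : ∃ k ∈ Q, k ∈ K := by
        cases hQqp with
        | one => exact absurd rfl hqp'
        | @cons Q₁ _ y _ i1 i2 i3 =>
          have hy : y ∈ insert q Q₁ := mem_insert_of_mem i3.left_mem
          rcases hQsub y hy with h | h | h
          · exact absurd (h ▸ i3.left_mem) i2
          · exact absurd (h ▸ i1) h3
          · exact ⟨y, hy, h⟩
      refine hend S Q p q hr hQqp hqp'.symm hpN hqN subset_rfl hxS (fun x hx _ _ => hx) ?_ ?_ hk
        (hodd.add_even hQe) (by omega) (Or.inl hodd)
      · intro x hx
        rcases hQsub x hx with rfl | rfl | h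
        · exact Or.inr ⟨h1.right_mem, hSne _ h1.right_mem⟩
        · exact Or.inr ⟨h1.left_mem, hSne _ h1.left_mem⟩
        · exact Or.inl h
      · intro x hx hxS'
        rcases hQsub x hx with h | h | h
        · exact Or.inr h
        · exact Or.inl h
        · exact absurd h (hSKd x hxS' (hSne x hxS'))

end Pool.Agent.Helper17.RL
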